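import Pool.Agent.Helper47.RFn.GoalsA

/-!
# Project RFn, packet EVS: evolution of the scalars
-/

namespace Pool.Agent.Helper47.RFn

open Finset

namespace EVSaux

variable {n : ℕ} {T : ℝ} {F : FB n T}

theorem R_aeaf (hF : F.Full) (e f : Ix n) : ∑ a, F.R a e a f = F.Ric e f := by
  rw [FB.Ric]
  refine Finset.sum_congr rfl fun a _ => ?_
  rw [hF.R12 a e a f, hF.R34 e a a f, neg_neg]

theorem swap23 {B : Type} [AddCommMonoid B] (g : Ix n → Ix n → Ix n → Ix n → B) :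
    ∑ a, ∑ b, ∑ e, ∑ f, g a e b f = ∑ a, ∑ b, ∑ e, ∑ f, g a b e f :=
  Finset.sum_congr rfl fun _ _ => Finset.sum_comm

theorem swap12 {B : Type} [AddCommMonoid B] (g : Ix n → Ix n → Ix n → Ix n → B) :
    ∑ a, ∑ b, ∑ e, ∑ f, g b a e f = ∑ a, ∑ b, ∑ e, ∑ f, g a b e f :=
  Finset.sum_comm

theorem twoY (hF : F.Full) :
    2 * ∑ a, ∑ b, ∑ e, ∑ f, F.R a e b f * F.R b e a f = ∑ a, ∑ b, ∑ e, ∑ f, F.R a e b f ^ 2 := by
  have h1 : ∀ a b e f, F.R a e b f - F.R b e a f = F.R a b e f := fun a b e f => by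
    have h := hF.bia1 a e b f
    rw [hF.R12 e b a f, hF.R12 b a e f] at h
    linear_combination h
  have h2 : ∑ a, ∑ b, ∑ e, ∑ f, F.R a b e f ^ 2 = ∑ a, ∑ b, ∑ e, ∑ f, F.R a e b f ^ 2 :=
    (swap23 fun a b e f => F.R a b e f ^ 2).symm
  have h3 : ∑ a, ∑ b, ∑ e, ∑ f, F.R b e a f ^ 2 = ∑ a, ∑ b, ∑ e, ∑ f, F.R a e b f ^ 2 :=
    swap12 fun a b e f => F.R a e b f ^ 2
  have h4 : ∑ a, ∑ b, ∑ e, ∑ f, F.R a b e f ^ 2 = ∑ a, ∑ b, ∑ e, ∑ f, F.R a e b f ^ 2 -
      2 * ∑ a, ∑ b, ∑ e, ∑ f, F.R a e b f * F.R b e a f +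
      ∑ a, ∑ b, ∑ e, ∑ f, F.R b e a f ^ 2 := by
    simp only [Finset.mul_sum, ← Finset.sum_sub_distrib, ← Finset.sum_add_distrib]
    refine Finset.sum_congr rfl fun a _ => Finset.sum_congr rfl fun b _ =>
      Finset.sum_congr rfl fun e _ => Finset.sum_congr rfl fun f _ => ?_
    rw [← h1]
    ring
  rw [h2, h3] at h4
  linear_combination h4

theorem sumQR (hF : F.Full) : ∑ a, ∑ b, F.QR a b a b = ∑ a, ∑ b, F.Ric a b ^ 2 := by
  have hZ : ∑ a, ∑ b, ∑ e, ∑ f, F.R a e a f * F.R b e b f = ∑ e, ∑ f, F.Ric e f ^ 2 := by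
    have h : ∀ e f, F.Ric e f ^ 2 = ∑ a, ∑ b, F.R a e a f * F.R b e b f := fun e f => by
      rw [← R_aeaf hF, sq, Finset.sum_mul_sum]
    simp only [h]
    calc ∑ a, ∑ b, ∑ e, ∑ f, F.R a e a f * F.R b e b f
        = ∑ a, ∑ e, ∑ b, ∑ f, F.R a e a f * F.R b e b f :=
          Finset.sum_congr rfl fun a _ => Finset.sum_comm
      _ = ∑ e, ∑ a, ∑ b, ∑ f, F.R a e a f * F.R b e b f := Finset.sum_comm
      _ = ∑ e, ∑ a, ∑ f, ∑ b, F.R a e a f * F.R b e b f :=
          Finset.sum_congr rfl fun a _ => Finset.sum_congr rfl fun b _ => Finset.sum_comm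
      _ = ∑ e, ∑ f, ∑ a, ∑ b, F.R a e a f * F.R b e b f :=
          Finset.sum_congr rfl fun a _ => Finset.sum_comm
  have h := twoY hF
  have hQ : ∑ a, ∑ b, F.QR a b a b = ∑ a, ∑ b, ∑ e, ∑ f, F.R a e b f ^ 2 -
      2 * (∑ a, ∑ b, ∑ e, ∑ f, F.R a e b f * F.R b e a f) +
      ∑ a, ∑ b, ∑ e, ∑ f, F.R a e a f * F.R b e b f := by
    simp only [FB.QR, Finset.mul_sum, ← Finset.sum_sub_distrib, ← Finset.sum_add_distrib]
    refine Finset.sum_congr rfl fun a _ => Finset.sum_congr rfl fun b _ =>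
      Finset.sum_congr rfl fun e _ => Finset.sum_congr rfl fun f _ => ?_
    ring
  rw [hQ, h, hZ]
  ring

/-- contraction with `P` in the third and fourth index -/
structure Hr (X : Ix n → Ix n → Ix n → Ix n → F.B) : Prop where
  h3 : ∀ x y a d, ∑ c, F.P a c * X x y c d = X x y a d
  h4 : ∀ x y c a, ∑ d, F.P a d * X x y c d = X x y c a

theorem P_mul (a : Ix n) (g : Ix n → F.B) (h : ∑ c, g c * F.nu c = 0) :
    ∑ c, F.P a c * g c = g a := by
  have h1 : ∀ c, F.P a c * g c = (if a = c then g c else 0) - F.nu a * (g c * F.nu c) := fun c => by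
    rw [FB.P, FB.dl]
    split_ifs <;> ring
  simp only [h1, Finset.sum_sub_distrib, ← Finset.mul_sum, h, mul_zero, sub_zero]
  simp

theorem Hr_R (hF : F.Full) : Hr F.R where
  h3 x y a d := P_mul a (fun c => F.R x y c d) (by
    have h := hF.nuR x y d
    have h2 : ∀ c, F.R x y c d * F.nu c = - (F.R x y d c * F.nu c) := fun c => by
      rw [hF.R34 x y c d]; ring
    simp only [h2, Finset.sum_neg_distrib, h, neg_zero])
  h4 x y c a := P_mul a (fun d => F.R x y c d) (hF.nuR x y c)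

theorem Hr_I (hPP : ∀ a c, ∑ b, F.P a b * F.P b c = F.P a c) (hs : ∀ a b, F.P a b = F.P b a) :
    Hr F.I where
  h3 x y a d := by
    have h1 : ∀ c, F.P a c * F.I x y c d = F.P y d * (F.P a c * F.P c x) -
        F.P x d * (F.P a c * F.P c y) := fun c => by
      rw [FB.I, hs c x, hs c y]; ring
    simp only [h1, Finset.sum_sub_distrib, ← Finset.mul_sum, hPP]
    rw [FB.I, hs a x, hs a y]
    ring
  h4 x y c a := by
    have h1 : ∀ d, F.P a d * F.I x y c d = F.P x c * (F.P a d * F.P d y) -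
        F.P y c * (F.P a d * F.P d x) := fun d => by
      rw [FB.I, hs d x, hs d y]; ring
    simp only [h1, Finset.sum_sub_distrib, ← Finset.mul_sum, hPP]
    rw [FB.I, hs a x, hs a y]
    ring

theorem sum_XI {X : Ix n → Ix n → Ix n → Ix n → F.B} (hX : Hr X) :
    ∑ a, ∑ b, ∑ c, ∑ d, X a b c d * F.I a b c d = ∑ a, ∑ b, (X a b a b - X a b b a) := by
  refine Finset.sum_congr rfl fun a _ => Finset.sum_congr rfl fun b _ => ?_
  have h1 : ∑ c, ∑ d, X a b c d * (F.P a c * F.P b d) = X a b a b := by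
    have h2 : ∀ c, ∑ d, X a b c d * (F.P a c * F.P b d) = F.P a c * X a b c b := fun c => by
      rw [← hX.h4 a b c b, Finset.mul_sum]
      exact Finset.sum_congr rfl fun d _ => by ring
    simp only [h2, hX.h3]
  have h2 : ∑ c, ∑ d, X a b c d * (F.P a d * F.P b c) = X a b b a := by
    have h2 : ∀ c, ∑ d, X a b c d * (F.P a d * F.P b c) = F.P b c * X a b c a := fun c => by
      rw [← hX.h4 a b c a, Finset.mul_sum]
      exact Finset.sum_congr rfl fun d _ => by ring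
    simp only [h2, hX.h3]
  rw [← h1, ← h2, ← Finset.sum_sub_distrib]
  refine Finset.sum_congr rfl fun c _ => ?_
  rw [← Finset.sum_sub_distrib]
  refine Finset.sum_congr rfl fun d _ => ?_
  rw [FB.I]
  ring

theorem n_lam (hn : 2 ≤ n) : (n : ℝ) • F.lam = ∑ a, F.Ric a a := by
  rw [FB.lam, smul_smul, mul_one_div_cancel (by positivity), one_smul]

theorem sum_EI (hn : 2 ≤ n) (hF : F.Full) (hPP : ∀ a c, ∑ b, F.P a b * F.P b c = F.P a c)
    (hs : ∀ a b, F.P a b = F.P b a) (htr : ∑ a, F.P a a = algebraMap ℝ F.B n) :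
    ∑ a, ∑ b, ∑ c, ∑ d, F.E a b c d * F.I a b c d = 0 := by
  have h1 : ∑ a, ∑ b, ∑ c, ∑ d, F.R a b c d * F.I a b c d = (2 * (n : ℝ)) • F.lam := by
    rw [sum_XI (Hr_R hF), mul_smul, n_lam hn, Finset.smul_sum]
    refine Finset.sum_congr rfl fun a _ => ?_
    rw [FB.Ric, Finset.smul_sum]
    refine Finset.sum_congr rfl fun b _ => ?_
    rw [hF.R34 a b b a, two_smul]
    ring
  have h2 : ∑ a, ∑ b, ∑ c, ∑ d, F.I a b c d * F.I a b c d =
      algebraMap ℝ F.B (2 * ((n : ℝ) ^ 2 - n)) := by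
    rw [sum_XI (Hr_I hPP hs)]
    have h3 : ∀ a b, F.I a b a b - F.I a b b a = 2 * (F.P a a * F.P b b) -
        2 * (F.P a b * F.P b a) := fun a b => by
      rw [FB.I, FB.I]; ring
    simp only [h3, Finset.sum_sub_distrib, ← Finset.mul_sum, ← Finset.sum_mul, hPP, htr]
    simp only [map_mul, map_sub, map_pow, map_ofNat]
    ring
  have h3 : ∀ a b c d, F.E a b c d * F.I a b c d = F.R a b c d * F.I a b c d -
      (1 / ((n : ℝ) - 1)) • (F.lam * (F.I a b c d * F.I a b c d)) := fun a b c d => by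
    rw [FB.E, sub_mul, smul_mul_assoc]
    ring_nf
  simp only [h3, Finset.sum_sub_distrib, ← Finset.smul_sum, ← Finset.mul_sum, h1, h2]
  have hn1 : (n : ℝ) - 1 ≠ 0 := by
    have : (2 : ℝ) ≤ n := by exact_mod_cast hn
    linarith
  rw [mul_comm F.lam, ← Algebra.smul_def, smul_smul, ← sub_smul]
  have : 2 * (n : ℝ) - 1 / ((n : ℝ) - 1) * (2 * ((n : ℝ) ^ 2 - n)) = 0 := by
    field_simp
    ring
  rw [this, zero_smul]

theorem Hop_sum {ι : Type} (hadd : ∀ f g : F.B, F.Hop (f + g) = F.Hop f + F.Hop g) (s : Finset ι)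
    (f : ι → F.B) : F.Hop (∑ i ∈ s, f i) = ∑ i ∈ s, F.Hop (f i) :=
  map_sum (AddMonoidHom.mk' F.Hop hadd) f s

end EVSaux

open EVSaux

/-- Packet EVS. -/
theorem goal_EVS (hEVM : Goal_EVM) (hPRD : Goal_PRD) (hVIN : Goal_VIN) (hBOC : Goal_BOC) :
    Goal_EVS := by
  intro n T F hn hF hRF
  obtain ⟨hprd, hprd2⟩ := hPRD n T F
  obtain ⟨-, -, -, -, -, hFI, hPs, -, hPP, htr⟩ := hprd2 hF.toBase
  have hadd : ∀ f g : F.B, F.Hop (f + g) = F.Hop f + F.Hop g := fun f g => (hprd f g).2.1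
  have hsub : ∀ f g : F.B, F.Hop (f - g) = F.Hop f - F.Hop g := fun f g => (hprd f g).2.2.1
  have hsmul : ∀ (c : ℝ) (f : F.B), F.Hop (c • f) = c • F.Hop f :=
    fun c f => ((hprd f f).2.2.2.1 c).1
  have hsq : ∀ f : F.B, F.Hop (f ^ 2) = (2 : ℝ) • (f * F.Hop f) - (2 : ℝ) • F.gg f f :=
    fun f => (hprd f f).2.2.2.2
  have hR := hEVM n T F hF hRF
  obtain ⟨vlam, ve2, -, -, -, -, -, hVIf, -, -⟩ := hVIN n T F hF
  have hlam : F.Hop F.lam = (2 / (n : ℝ)) • ∑ a, ∑ b, F.Ric a b ^ 2 := by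
    rw [← sumQR hF]
    simp only [FB.lam, FB.Ric, hsmul, Hop_sum hadd, hR, ← Finset.smul_sum, smul_smul]
    congr 1
    ring
  have hgg : ∀ f : F.B, ∑ a, F.gg (F.H a f) (F.H a f) = F.h2 f := fun f => by
    simp only [FB.gg, FB.h2, ← sq]
    exact Finset.sum_comm
  have hgf : ∀ f : F.B, F.VI f → F.Hop (F.gg f f) =
      (2 : ℝ) • (∑ a, F.H a f * F.H a (F.Hop f)) - (2 : ℝ) • F.h2 f := fun f hf => by
    rw [FB.gg, Hop_sum hadd, ← hgg, Finset.smul_sum, Finset.smul_sum, ← Finset.sum_sub_distrib]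
    refine Finset.sum_congr rfl fun a _ => ?_
    rw [← sq, hsq, (hBOC n T F hF f hf).2.1 hRF a]
  refine ⟨hlam, ?_, ?_, fun a => ?_, fun u hu hu0 => ⟨?_, ?_⟩⟩
  · have hE : ∀ a b c d, F.Hop (F.E a b c d) = (2 : ℝ) • F.QR a b c d -
        (1 / ((n : ℝ) - 1)) • (F.Hop F.lam * F.I a b c d) := fun a b c d => by
      rw [FB.E, hsub, hsmul, hFI, hR]
    have h1 : F.Hop F.e2 = ∑ a, ∑ b, ∑ c, ∑ d, ((4 : ℝ) • (F.E a b c d * F.QR a b c d) -
        (2 / ((n : ℝ) - 1)) • (F.Hop F.lam * (F.E a b c d * F.I a b c d)) -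
        (2 : ℝ) • F.gg (F.E a b c d) (F.E a b c d)) := by
      simp only [FB.e2, Hop_sum hadd]
      refine Finset.sum_congr rfl fun a _ => Finset.sum_congr rfl fun b _ =>
        Finset.sum_congr rfl fun c _ => Finset.sum_congr rfl fun d _ => ?_
      rw [hsq, hE, mul_sub, smul_sub, mul_smul_comm, mul_smul_comm, smul_smul, smul_smul]
      congr 1
      congr 1
      · norm_num
      · rw [mul_left_comm]
        congr 1
        ring
    have h2 : F.dE = ∑ a, ∑ b, ∑ c, ∑ d, F.gg (F.E a b c d) (F.E a b c d) := by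
      simp only [FB.dE, FB.gg, ← sq]
      rw [Finset.sum_comm]
      refine Finset.sum_congr rfl fun a _ => ?_
      rw [Finset.sum_comm]
      refine Finset.sum_congr rfl fun b _ => ?_
      rw [Finset.sum_comm]
      refine Finset.sum_congr rfl fun c _ => ?_
      rw [Finset.sum_comm]
    rw [h1, h2]
    simp only [Finset.sum_sub_distrib, ← Finset.smul_sum, ← Finset.mul_sum]
    rw [sum_EI hn hF hPP hPs htr, mul_zero, smul_zero, sub_zero]
  · rw [hgf _ vlam, hlam]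
    congr 1
    simp only [Derivation.map_smul, map_sum, mul_smul_comm, ← Finset.smul_sum, smul_smul]
    have h : ∀ a, F.H a F.lam * ∑ b, ∑ c, F.H a (F.Ric b c ^ 2) =
        (2 : ℝ) • ∑ b, ∑ c, F.H a F.lam * F.Ric b c * F.H a (F.Ric b c) := fun a => by
      simp only [Finset.mul_sum, Finset.smul_sum]
      refine Finset.sum_congr rfl fun b _ => Finset.sum_congr rfl fun c _ => ?_
      rw [sq, Derivation.leibniz, smul_eq_mul, two_smul]
      ring
    simp only [h, ← Finset.smul_sum, smul_smul]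
    congr 1
    ring
  · simp only [FB.e2, map_sum, Finset.smul_sum]
    refine Finset.sum_congr rfl fun i _ => Finset.sum_congr rfl fun j _ =>
      Finset.sum_congr rfl fun k _ => Finset.sum_congr rfl fun l _ => ?_
    rw [sq, Derivation.leibniz, smul_eq_mul, two_smul]
  · rw [hgf u hu, hu0]
    simp
  · rw [(hBOC n T F hF u hu).2.2.1 hRF, hu0]
    simp [FB.Lap]

end Pool.Agent.Helper47.RFn
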